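import Mathlib

set_option autoImplicit false

/-!
Project UM8 (helper97), job EN2 (helper299): truncated exponentials of arithmetic functions, mean squares.
-/

namespace Pool.Agent.Q299.UM

open Finset

noncomputable section

/-- truncated exponential of an arithmetic function -/
def Ee (F : ArithmeticFunction ℝ) (R : ℕ) : ArithmeticFunction ℝ := ∑ r ∈ range (R + 1), ((r.factorial : ℝ)⁻¹) • F ^ r

/-- evaluation -/
def ev (n : ℕ) : ArithmeticFunction ℝ →+ ℝ where
  toFun F := F n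
  map_zero' := rfl
  map_add' _ _ := rfl

theorem sum_ap {ι : Type*} (s : Finset ι) (f : ι → ArithmeticFunction ℝ) (n : ℕ) : (∑ i ∈ s, f i) n = ∑ i ∈ s, f i n :=
  map_sum (ev n) f s

theorem Ee_apply (F : ArithmeticFunction ℝ) (R n : ℕ) : Ee F R n = ∑ r ∈ range (R + 1), (F ^ r) n / (r.factorial : ℝ) := by
  unfold Ee
  rw [sum_ap]
  refine sum_congr rfl fun r _ => ?_
  rw [ArithmeticFunction.smul_map, smul_eq_mul, div_eq_inv_mul]

/-- pointwise nonnegative -/
def NN (F : ArithmeticFunction ℝ) : Prop := ∀ n, 0 ≤ F n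

/-- pointwise order -/
def Le (F G : ArithmeticFunction ℝ) : Prop := ∀ n, F n ≤ G n

theorem NN_mul {F G : ArithmeticFunction ℝ} (hF : NN F) (hG : NN G) : NN (F * G) := by
  intro n
  rw [ArithmeticFunction.mul_apply]
  exact sum_nonneg fun x _ => mul_nonneg (hF _) (hG _)

theorem NN_one : NN 1 := by
  intro n
  rw [ArithmeticFunction.one_apply]
  split_ifs <;> norm_num

theorem NN_pow {F : ArithmeticFunction ℝ} (hF : NN F) (r : ℕ) : NN (F ^ r) := by
  induction r with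
  | zero => rw [pow_zero]; exact NN_one
  | succ r ih => rw [pow_succ]; exact NN_mul ih hF

theorem NN_Ee {F : ArithmeticFunction ℝ} (hF : NN F) (R : ℕ) : NN (Ee F R) := by
  intro n
  rw [Ee_apply]
  exact sum_nonneg fun r _ => div_nonneg (NN_pow hF r n) (by positivity)

theorem NN_sum {ι : Type*} (s : Finset ι) (f : ι → ArithmeticFunction ℝ) (hf : ∀ i ∈ s, NN (f i)) : NN (∑ i ∈ s, f i) := by
  intro n
  rw [sum_ap]
  exact sum_nonneg fun i hi => hf i hi n

theorem NN_prod {ι : Type*} (s : Finset ι) (f : ι → ArithmeticFunction ℝ) (hf : ∀ i ∈ s, NN (f i)) : NN (∏ i ∈ s, f i) :=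
  prod_induction f NN (fun _ _ => NN_mul) NN_one hf

theorem Le_mul {F F' G G' : ArithmeticFunction ℝ} (h1 : Le F F') (h2 : Le G G') (hF : NN F') (hG : NN G) : Le (F * G) (F' * G') := by
  intro n
  rw [ArithmeticFunction.mul_apply, ArithmeticFunction.mul_apply]
  exact sum_le_sum fun x _ => mul_le_mul (h1 _) (h2 _) (hG _) (hF _)

theorem Ee_add {F G : ArithmeticFunction ℝ} (hF : NN F) (hG : NN G) (R : ℕ) : Le (Ee (F + G) R) (Ee F R * Ee G R) := by
  obtain ⟨T, hT⟩ : ∃ T : ℕ × ℕ → ArithmeticFunction ℝ, T = fun m => ((m.1.factorial : ℝ)⁻¹ * (m.2.factorial : ℝ)⁻¹) • (F ^ m.1 * G ^ m.2) :=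
    ⟨_, rfl⟩
  have hT0 : ∀ m, NN (T m) := by
    intro m n
    rw [hT]
    simp only [ArithmeticFunction.smul_map, smul_eq_mul]
    exact mul_nonneg (by positivity) (NN_mul (NN_pow hF _) (NN_pow hG _) n)
  have h1 : Ee (F + G) R = ∑ r ∈ range (R + 1), ∑ m ∈ antidiagonal r, T m := by
    unfold Ee
    refine sum_congr rfl fun r _ => ?_
    rw [(Commute.all F G).add_pow', smul_sum]
    refine sum_congr rfl fun m hm => ?_
    rw [HasAntidiagonal.mem_antidiagonal] at hm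
    rw [hT, ← Nat.cast_smul_eq_nsmul ℝ, smul_smul]
    congr 1
    rw [← hm]
    have h2 : (((m.1 + m.2).choose m.1 : ℝ)) * m.1.factorial * m.2.factorial = ((m.1 + m.2).factorial : ℝ) := by
      rw [Nat.choose_symm_add]
      exact_mod_cast Nat.add_choose_mul_factorial_mul_factorial m.1 m.2
    have h3 : (m.1.factorial : ℝ) ≠ 0 := by positivity
    have h4 : (m.2.factorial : ℝ) ≠ 0 := by positivity
    have h5 : ((m.1 + m.2).factorial : ℝ) ≠ 0 := by positivity
    field_simp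
    linarith
  have h2 : Ee F R * Ee G R = ∑ m ∈ range (R + 1) ×ˢ range (R + 1), T m := by
    unfold Ee
    rw [sum_mul_sum, sum_product, hT]
    refine sum_congr rfl fun i _ => sum_congr rfl fun j _ => ?_
    rw [smul_mul_smul_comm]
  intro n
  rw [h1, h2, sum_ap, sum_ap]
  have h3 : ∑ r ∈ range (R + 1), (∑ m ∈ antidiagonal r, T m) n = ∑ m ∈ (range (R + 1)).biUnion antidiagonal, T m n := by
    rw [sum_biUnion]
    · exact sum_congr rfl fun r _ => sum_ap _ _ _
    · intro r _ r' _ hr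
      rw [Function.onFun, disjoint_left]
      intro m hm hm'
      rw [HasAntidiagonal.mem_antidiagonal] at hm hm'
      exact hr (hm.symm.trans hm')
  rw [h3]
  refine sum_le_sum_of_subset_of_nonneg ?_ fun m _ _ => hT0 m n
  intro m hm
  rw [mem_biUnion] at hm
  obtain ⟨r, hr, hm⟩ := hm
  rw [HasAntidiagonal.mem_antidiagonal] at hm
  rw [mem_range] at hr
  rw [mem_product, mem_range, mem_range]
  omega

theorem Ee_zero (R : ℕ) : Ee 0 R = 1 := by
  unfold Ee
  rw [sum_eq_single 0]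
  · simp
  · intro r _ hr
    rw [zero_pow hr, smul_zero]
  · intro h
    exact absurd (mem_range.2 (Nat.succ_pos R)) h

theorem Le_refl (F : ArithmeticFunction ℝ) : Le F F := fun _ => le_rfl

theorem Le_trans {F G H : ArithmeticFunction ℝ} (h1 : Le F G) (h2 : Le G H) : Le F H := fun n => (h1 n).trans (h2 n)

theorem Ee_sum {ι : Type*} (s : Finset ι) (f : ι → ArithmeticFunction ℝ) (hf : ∀ i, NN (f i)) (R : ℕ) :
    Le (Ee (∑ i ∈ s, f i) R) (∏ i ∈ s, Ee (f i) R) := by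
  classical
  induction s using Finset.induction_on with
  | empty => rw [sum_empty, prod_empty, Ee_zero]; exact Le_refl _
  | insert i s hi ih =>
    rw [sum_insert hi, prod_insert hi]
    refine Le_trans (Ee_add (hf i) (NN_sum s f fun i _ => hf i) R) ?_
    exact Le_mul (Le_refl _) ih (NN_Ee (hf i) R) (NN_Ee (NN_sum s f fun i _ => hf i) R)

/-! ### supports -/

/-- all the primes dividing an element of the support satisfy `P` -/
def SPA (P : ℕ → Prop) (F : ArithmeticFunction ℝ) : Prop := ∀ n, F n ≠ 0 → ∀ p, p.Prime → p ∣ n → P p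

theorem SPA_mul {P : ℕ → Prop} {F G : ArithmeticFunction ℝ} (hF : SPA P F) (hG : SPA P G) : SPA P (F * G) := by
  intro n hn p hp hpn
  rw [ArithmeticFunction.mul_apply] at hn
  obtain ⟨x, hx, h⟩ := exists_ne_zero_of_sum_ne_zero hn
  rw [Nat.mem_divisorsAntidiagonal] at hx
  rw [← hx.1] at hpn
  rcases (Nat.Prime.dvd_mul hp).1 hpn with h3 | h3
  · exact hF x.1 (left_ne_zero_of_mul h) p hp h3
  · exact hG x.2 (right_ne_zero_of_mul h) p hp h3

theorem SPA_one (P : ℕ → Prop) : SPA P 1 := by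
  intro n hn p hp hpn
  have : n = 1 := by
    by_contra h
    exact hn (ArithmeticFunction.one_apply_ne h)
  rw [this] at hpn
  exact absurd (Nat.dvd_one.1 hpn) hp.one_lt.ne'

theorem SPA_pow {P : ℕ → Prop} {F : ArithmeticFunction ℝ} (hF : SPA P F) (r : ℕ) : SPA P (F ^ r) := by
  induction r with
  | zero => rw [pow_zero]; exact SPA_one P
  | succ r ih => rw [pow_succ]; exact SPA_mul ih hF

theorem SPA_Ee {P : ℕ → Prop} {F : ArithmeticFunction ℝ} (hF : SPA P F) (R : ℕ) : SPA P (Ee F R) := by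
  intro n hn
  rw [Ee_apply] at hn
  obtain ⟨r, _, h⟩ := exists_ne_zero_of_sum_ne_zero hn
  refine SPA_pow hF r n fun h1 => h ?_
  rw [h1, zero_div]

theorem SPA_mono {P Q : ℕ → Prop} {F : ArithmeticFunction ℝ} (hF : SPA P F) (h : ∀ p, P p → Q p) : SPA Q F :=
  fun n hn p hp hpn => h p (hF n hn p hp hpn)

theorem SPA_prod {ι : Type*} {P : ℕ → Prop} (s : Finset ι) (f : ι → ArithmeticFunction ℝ) (hf : ∀ i ∈ s, SPA P (f i)) : SPA P (∏ i ∈ s, f i) :=
  prod_induction f (SPA P) (fun _ _ => SPA_mul) (SPA_one P) hf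

/-! ### mean squares -/

/-- mean square -/
def N2A (X : ℕ) (F : ArithmeticFunction ℝ) : ℝ := ∑ n ∈ Icc 1 X, F n ^ 2 / n

theorem N2A_nonneg (X : ℕ) (F : ArithmeticFunction ℝ) : 0 ≤ N2A X F := by
  unfold N2A
  positivity

theorem N2A_one (X : ℕ) : N2A X 1 ≤ 1 := by
  unfold N2A
  have h1 : ∀ n ∈ Icc 1 X, (1 : ArithmeticFunction ℝ) n ^ 2 / (n : ℝ) = if n = 1 then 1 else 0 := by
    intro n _
    rw [ArithmeticFunction.one_apply]
    split_ifs with h
    · rw [h]; simp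
    · simp
  rw [sum_congr rfl h1, sum_ite_eq']
  split_ifs <;> norm_num

theorem sum_sq_single {ι : Type*} (s : Finset ι) (f : ι → ℝ) (h : ∀ x ∈ s, ∀ y ∈ s, f x ≠ 0 → f y ≠ 0 → x = y) :
    (∑ x ∈ s, f x) ^ 2 = ∑ x ∈ s, f x ^ 2 := by
  by_cases h0 : ∀ x ∈ s, f x = 0
  · rw [sum_eq_zero h0, sum_eq_zero (fun x hx => by rw [h0 x hx]; ring)]
    ring
  · push Not at h0
    obtain ⟨x₀, hx₀, hf⟩ := h0
    have h1 : ∀ y ∈ s, y ≠ x₀ → f y = 0 := by
      intro y hy hne
      by_contra h2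
      exact hne (h y hy x₀ hx₀ h2 hf)
    rw [sum_eq_single x₀ h1 (fun h3 => absurd hx₀ h3), sum_eq_single x₀ (fun y hy hne => by rw [h1 y hy hne]; ring)
      (fun h3 => absurd hx₀ h3)]

theorem N2A_mul {F G : ArithmeticFunction ℝ} {P : ℕ → Prop} (hF : SPA P F) (hG : SPA (fun p => ¬ P p) G) (X : ℕ) :
    N2A X (F * G) ≤ N2A X F * N2A X G := by
  have cop : ∀ x y, F x ≠ 0 → G y ≠ 0 → Nat.Coprime x y := by
    intro x y hx hy
    by_contra hc
    obtain ⟨p, hp, h1, h2⟩ := Nat.Prime.not_coprime_iff_dvd.1 hc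
    exact hG y hy p hp h2 (hF x hx p hp h1)
  have h1 : ∀ n ∈ Icc 1 X, (F * G) n ^ 2 / (n : ℝ) =
      ∑ x ∈ n.divisorsAntidiagonal, (F x.1 ^ 2 / (x.1 : ℝ)) * (G x.2 ^ 2 / (x.2 : ℝ)) := by
    intro n hn
    have hn0 : n ≠ 0 := by
      have := (mem_Icc.1 hn).1
      omega
    rw [ArithmeticFunction.mul_apply, sum_sq_single, sum_div]
    · refine sum_congr rfl fun x hx => ?_
      rw [Nat.mem_divisorsAntidiagonal] at hx
      have h2 : (n : ℝ) = x.1 * x.2 := by exact_mod_cast hx.1.symm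
      rw [h2, mul_pow, div_mul_div_comm]
    · intro x hx y hy hfx hfy
      rw [Nat.mem_divisorsAntidiagonal] at hx hy
      have a1 := left_ne_zero_of_mul hfx
      have a2 := right_ne_zero_of_mul hfx
      have b1 := left_ne_zero_of_mul hfy
      have b2 := right_ne_zero_of_mul hfy
      have e1 : x.1 ∣ y.1 := by
        have : x.1 ∣ y.1 * y.2 := ⟨x.2, by rw [hy.1, hx.1]⟩
        exact (cop _ _ a1 b2).dvd_of_dvd_mul_right this
      have e2 : y.1 ∣ x.1 := by
        have : y.1 ∣ x.1 * x.2 := ⟨y.2, by rw [hy.1, hx.1]⟩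
        exact (cop _ _ b1 a2).dvd_of_dvd_mul_right this
      have e3 : x.1 = y.1 := Nat.dvd_antisymm e1 e2
      have e4 : x.2 = y.2 := by
        have h5 : x.1 * x.2 = x.1 * y.2 := by rw [hx.1, e3, hy.1]
        refine Nat.eq_of_mul_eq_mul_left (Nat.pos_of_ne_zero ?_) h5
        rintro h6
        rw [h6, zero_mul] at hx
        exact hn0 hx.1.symm
      exact Prod.ext e3 e4
  unfold N2A
  rw [sum_congr rfl h1, ← sum_biUnion, sum_mul_sum, ← sum_product']
  · refine sum_le_sum_of_subset_of_nonneg ?_ fun x _ _ => by positivity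
    intro x hx
    rw [mem_biUnion] at hx
    obtain ⟨n, hn, hx⟩ := hx
    rw [Nat.mem_divisorsAntidiagonal] at hx
    rw [mem_Icc] at hn
    have h2 : x.1 ≠ 0 := fun h => hx.2 (by rw [← hx.1, h, zero_mul])
    have h3 : x.2 ≠ 0 := fun h => hx.2 (by rw [← hx.1, h, mul_zero])
    rw [mem_product, mem_Icc, mem_Icc]
    refine ⟨⟨Nat.pos_of_ne_zero h2, ?_⟩, Nat.pos_of_ne_zero h3, ?_⟩
    · exact (Nat.le_mul_of_pos_right _ (Nat.pos_of_ne_zero h3)).trans (hx.1.le.trans hn.2)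
    · exact (Nat.le_mul_of_pos_left _ (Nat.pos_of_ne_zero h2)).trans (hx.1.le.trans hn.2)
  · intro n _ m _ hnm
    rw [Function.onFun, disjoint_left]
    intro x hx hx'
    rw [Nat.mem_divisorsAntidiagonal] at hx hx'
    exact hnm (hx.1.symm.trans hx'.1)

theorem N2A_prod {ι : Type*} (X : ℕ) (s : Finset ι) (f : ι → ArithmeticFunction ℝ) (π : ι → ℕ)
    (hπ : ∀ i ∈ s, ∀ j ∈ s, π i = π j → i = j) (hf : ∀ i ∈ s, SPA (fun p => p = π i) (f i)) :
    N2A X (∏ i ∈ s, f i) ≤ ∏ i ∈ s, N2A X (f i) := by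
  classical
  induction s using Finset.induction_on with
  | empty => rw [prod_empty, prod_empty]; exact N2A_one X
  | insert i s hi ih =>
    rw [prod_insert hi, prod_insert hi]
    have h1 := ih (fun x hx y hy => hπ x (mem_insert_of_mem hx) y (mem_insert_of_mem hy)) (fun x hx => hf x (mem_insert_of_mem hx))
    refine (N2A_mul (P := fun p => p = π i) (hf i (mem_insert_self i s)) ?_ X).trans ?_
    · refine SPA_prod s f fun j hj => ?_
      refine SPA_mono (hf j (mem_insert_of_mem hj)) ?_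
      rintro p rfl h
      have := hπ j (mem_insert_of_mem hj) i (mem_insert_self i s) h
      rw [this] at hj
      exact hi hj
    · exact mul_le_mul_of_nonneg_left h1 (N2A_nonneg _ _)

/-! ### one prime -/

theorem pow_le_l1 {F : ArithmeticFunction ℝ} (hF : NN F) (S : ℝ) (hS : 0 ≤ S) (h : ∀ n : ℕ, ∑ d ∈ n.divisors, F d ≤ S) (r n : ℕ) :
    (F ^ r) n ≤ S ^ r := by
  induction r generalizing n with
  | zero =>
    rw [pow_zero, pow_zero, ArithmeticFunction.one_apply]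
    split_ifs <;> norm_num
  | succ r ih =>
    rw [pow_succ', ArithmeticFunction.mul_apply, pow_succ']
    calc ∑ x ∈ n.divisorsAntidiagonal, F x.1 * (F ^ r) x.2 ≤ ∑ x ∈ n.divisorsAntidiagonal, F x.1 * S ^ r :=
          sum_le_sum fun x _ => mul_le_mul_of_nonneg_left (ih x.2) (hF _)
      _ = (∑ d ∈ n.divisors, F d) * S ^ r := by
          rw [← sum_mul, Nat.sum_divisorsAntidiagonal (fun d _ => F d)]
      _ ≤ S * S ^ r := mul_le_mul_of_nonneg_right (h n) (by positivity)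

theorem Ee_le_exp {F : ArithmeticFunction ℝ} (hF : NN F) (S : ℝ) (hS : 0 ≤ S) (h : ∀ n : ℕ, ∑ d ∈ n.divisors, F d ≤ S) (R n : ℕ) :
    Ee F R n ≤ Real.exp S := by
  rw [Ee_apply]
  refine le_trans (sum_le_sum fun r _ => ?_) (Real.sum_le_exp_of_nonneg hS (R + 1))
  gcongr
  exact pow_le_l1 hF S hS h r n

theorem Ee_at_one {F : ArithmeticFunction ℝ} (h1 : F 1 = 0) (R : ℕ) : Ee F R 1 = 1 := by
  have h2 : ∀ r : ℕ, (F ^ (r + 1)) 1 = 0 := by
    intro r
    rw [pow_succ, ArithmeticFunction.mul_apply_one, h1, mul_zero]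
  rw [Ee_apply, sum_range_succ', sum_eq_zero (fun r _ => by rw [h2 r, zero_div])]
  simp

theorem Ee_at_prime {F : ArithmeticFunction ℝ} (hF : NN F) (h1 : F 1 = 0) {p : ℕ} (hp : p.Prime) (R : ℕ) : Ee F R p ≤ F p := by
  have h2 : ∀ r : ℕ, (F ^ (r + 1)) 1 = 0 := by
    intro r
    rw [pow_succ, ArithmeticFunction.mul_apply_one, h1, mul_zero]
  have h3 : ∀ r : ℕ, (F ^ (r + 2)) p = 0 := by
    intro r
    rw [pow_succ', ArithmeticFunction.mul_apply, Nat.sum_divisorsAntidiagonal (fun d e => F d * (F ^ (r + 1)) e), hp.sum_divisors,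
      Nat.div_self hp.pos, h1, h2 r]
    ring
  rw [Ee_apply]
  rcases Nat.eq_zero_or_pos R with hR | hR
  · subst hR
    simp only [zero_add, sum_range_one, pow_zero, ArithmeticFunction.one_apply, if_neg hp.one_lt.ne', zero_div]
    exact hF p
  · obtain ⟨k, rfl⟩ : ∃ k, R = k + 1 := ⟨R - 1, by omega⟩
    rw [sum_range_succ', sum_range_succ', sum_eq_zero (fun r _ => by rw [h3 r, zero_div])]
    simp [hp.one_lt.ne']

theorem N2A_local {F : ArithmeticFunction ℝ} (hF : NN F) {p : ℕ} (hp : p.Prime) (h1 : F 1 = 0) (hs : SPA (fun q => q = p) F) (S : ℝ)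
    (hS : 0 ≤ S) (h : ∀ n : ℕ, ∑ d ∈ n.divisors, F d ≤ S) (R X : ℕ) :
    N2A X (Ee F R) ≤ 1 + F p ^ 2 / p + 2 * Real.exp (2 * S) / (p : ℝ) ^ 2 := by
  obtain ⟨t, ht⟩ : ∃ t : ℕ → ℝ, t = fun v => Ee F R (p ^ v) ^ 2 / ((p ^ v : ℕ) : ℝ) := ⟨_, rfl⟩
  have ht0 : ∀ v, 0 ≤ t v := by
    intro v
    rw [ht]
    positivity
  have hE := SPA_Ee hs R
  have e1 : N2A X (Ee F R) ≤ ∑ v ∈ range (X + 3), t v := by
    unfold N2A
    have e2 : ∑ n ∈ Icc 1 X, Ee F R n ^ 2 / (n : ℝ) = ∑ n ∈ (Icc 1 X).filter (fun n => Ee F R n ≠ 0), Ee F R n ^ 2 / (n : ℝ) := by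
      rw [sum_filter]
      refine sum_congr rfl fun n _ => ?_
      split_ifs with h0
      · rfl
      · rw [not_not] at h0
        rw [h0]
        simp
    rw [e2]
    have e3 : ∑ v ∈ range (X + 3), t v = ∑ n ∈ (range (X + 3)).image (fun v => p ^ v), Ee F R n ^ 2 / (n : ℝ) := by
      rw [sum_image, ht]
      intro a _ b _ hab
      exact Nat.pow_right_injective hp.two_le hab
    rw [e3]
    refine sum_le_sum_of_subset_of_nonneg ?_ fun n _ _ => by positivity
    intro n hn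
    rw [mem_filter, mem_Icc] at hn
    have h2 := Nat.eq_prime_pow_of_unique_prime_dvd (n := n) (p := p) (by omega) (fun {d} hd hdn => hE n hn.2 d hd hdn)
    rw [mem_image]
    refine ⟨n.primeFactorsList.length, ?_, h2.symm⟩
    rw [mem_range]
    have h3 : n.primeFactorsList.length < p ^ n.primeFactorsList.length := Nat.lt_pow_self hp.one_lt
    rw [← h2] at h3
    omega
  refine e1.trans ?_
  rw [sum_range_succ', sum_range_succ']
  have hp0 : (0 : ℝ) < p := by exact_mod_cast hp.pos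
  have hp2 : (2 : ℝ) ≤ p := by exact_mod_cast hp.two_le
  have t0 : t 0 = 1 := by
    rw [ht]
    simp [Ee_at_one h1]
  have t1 : t 1 ≤ F p ^ 2 / p := by
    rw [ht]
    simp only [pow_one]
    have a1 := Ee_at_prime hF h1 hp R
    have a2 := NN_Ee hF R p
    gcongr
  have t2 : ∑ v ∈ range (X + 1), t (v + 1 + 1) ≤ 2 * Real.exp (2 * S) / (p : ℝ) ^ 2 := by
    have a3 : ∀ v ∈ range (X + 1), t (v + 1 + 1) ≤ Real.exp (2 * S) / (p : ℝ) ^ 2 * (1 / 2) ^ v := by
      intro v _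
      rw [ht]
      simp only
      have a4 := Ee_le_exp hF S hS h R (p ^ (v + 1 + 1))
      have a5 := NN_Ee hF R (p ^ (v + 1 + 1))
      have a6 : Ee F R (p ^ (v + 1 + 1)) ^ 2 ≤ Real.exp (2 * S) := by
        calc Ee F R (p ^ (v + 1 + 1)) ^ 2 ≤ Real.exp S ^ 2 := pow_le_pow_left₀ a5 a4 2
          _ = Real.exp (2 * S) := by rw [← Real.exp_nat_mul]; norm_num
      have a7 : ((p ^ (v + 1 + 1) : ℕ) : ℝ) = (p : ℝ) ^ 2 * (p : ℝ) ^ v := by push_cast; ring
      rw [a7]
      have a8 : (2 : ℝ) ^ v ≤ (p : ℝ) ^ v := pow_le_pow_left₀ (by norm_num) hp2 v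
      calc Ee F R (p ^ (v + 1 + 1)) ^ 2 / ((p : ℝ) ^ 2 * (p : ℝ) ^ v) ≤ Real.exp (2 * S) / ((p : ℝ) ^ 2 * 2 ^ v) := by gcongr
        _ = _ := by
          rw [one_div, inv_pow]
          field_simp
    refine (sum_le_sum a3).trans ?_
    rw [← mul_sum]
    have a9 := sum_geometric_two_le (X + 1)
    calc Real.exp (2 * S) / (p : ℝ) ^ 2 * ∑ v ∈ range (X + 1), (1 / 2 : ℝ) ^ v ≤ Real.exp (2 * S) / (p : ℝ) ^ 2 * 2 := by gcongr
      _ = _ := by ring
  rw [zero_add, t0]
  linarith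

end

end Pool.Agent.Q299.UM
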