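import Pool.Agent.Q97.UM.Stm14
import Pool.Agent.Q14.UM.EL
import Pool.Agent.Q299.UM.EN2A

set_option autoImplicit false

/-!
Project UM8 (helper97), job EN2 (helper299): the mean square of the polynomial of the blocks, both bounds.
The lower bound follows `Pool.Agent.Q14.UM.t_EL` (helper14) with the longer truncation.
-/

namespace Pool.Agent.Q299.UM

open Filter Topology MeasureTheory Complex
open Pool.Agent.Q97.UM
open Pool.Agent.Q14.UM

noncomputable section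

/-! ### lower bound -/

theorem ebk_succ (D κ : ℝ) (a a2 : ℕ → ℂ) (J : ℕ) :
    ebk D κ a a2 0 (J + 1) = cv (te (qb D a a2 J) (R9 κ J)) (ebk D κ a a2 0 J) := by
  show cv (te (qb D a a2 (0 + J)) (R9 κ (0 + J))) (ebk D κ a a2 0 J) = _
  rw [zero_add]

theorem SP_ebk (D κ : ℝ) (a a2 : ℕ → ℂ) (J : ℕ) : SP (fun p => ∃ j < J, p ∈ PB D j) (ebk D κ a a2 0 J) := by
  induction J with
  | zero => exact SP_one _
  | succ J ih =>
    rw [ebk_succ]
    apply SP_cv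
    · intro n hn
      have := SP_te _ _ (SP_qb D a a2 J) (R9 κ J) n hn
      exact ⟨this.1, fun p hp hpn => ⟨J, Nat.lt_succ_self J, this.2 p hp hpn⟩⟩
    · intro n hn
      have := ih n hn
      refine ⟨this.1, fun p hp hpn => ?_⟩
      obtain ⟨j, hj, h⟩ := this.2 p hp hpn
      exact ⟨j, hj.trans (Nat.lt_succ_self J), h⟩

theorem N2_ebk_ge (D κ A C : ℝ) (a a2 : ℕ → ℂ) (hD : 1 ≤ D) (hC : ∀ j, ∑ p ∈ PB D j, (1 : ℝ) / p ≤ C)
    (ha : ∀ n, ‖a n‖ ≤ A) (hR : ∀ j, Real.exp (Real.exp 1 * (A ^ 2 * C) - R9 κ j) ≤ 1) (J : ℕ) : ∃ X : ℕ,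
    ∏ j ∈ Finset.range J, ((1 - Real.exp (Real.exp 1 * (A ^ 2 * C) - R9 κ j)) *
      Real.exp (∑ p ∈ PB D j, ‖a p‖ ^ 2 / p - ∑ p ∈ PB D j, (‖a p‖ ^ 2 / p) ^ 2)) ≤ N2 X (ebk D κ a a2 0 J) := by
  induction J with
  | zero =>
    refine ⟨1, ?_⟩
    unfold N2 ebk
    simp
  | succ J ih =>
    obtain ⟨X, hX⟩ := ih
    refine ⟨(∏ p ∈ PB D J, p) * X, ?_⟩
    rw [Finset.prod_range_succ, mul_comm]
    have h1 := N2_te_ge (qb D a a2 J) a (PB D J) (fun p hp => (mem_PB hp).1) (fun p hp => qb_prime D a a2 J p hp)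
      (fun d hd h => qb_sqfree D a a2 J d hd h) (R9 κ J)
    have hS : ∑ p ∈ PB D J, ‖a p‖ ^ 2 / (p : ℝ) ≤ A ^ 2 * C := by
      calc ∑ p ∈ PB D J, ‖a p‖ ^ 2 / (p : ℝ) ≤ ∑ p ∈ PB D J, A ^ 2 * (1 / (p : ℝ)) := by
            apply Finset.sum_le_sum
            intro p _
            rw [mul_one_div]
            have := ha p
            gcongr
        _ = A ^ 2 * ∑ p ∈ PB D J, 1 / (p : ℝ) := by rw [Finset.mul_sum]
        _ ≤ A ^ 2 * C := mul_le_mul_of_nonneg_left (hC J) (by positivity)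
    have h2 := sum_trunc (PB D J) (fun p => ‖a p‖ ^ 2 / (p : ℝ)) (fun p _ => by positivity) (R9 κ J) (A ^ 2 * C) hS
    have h3 := h2.trans h1
    have h4 : N2 (∏ p ∈ PB D J, p) (te (qb D a a2 J) (R9 κ J)) * N2 X (ebk D κ a a2 0 J) ≤
        N2 ((∏ p ∈ PB D J, p) * X) (ebk D κ a a2 0 (J + 1)) := by
      rw [ebk_succ]
      apply N2_mul_le _ _ (fun p => p ∈ PB D J)
      · exact SP_te _ _ (SP_qb D a a2 J) (R9 κ J)
      · intro n hn
        have := SP_ebk D κ a a2 J n hn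
        refine ⟨this.1, fun p hp hpn hpJ => ?_⟩
        obtain ⟨j, hj, h⟩ := this.2 p hp hpn
        exact hj.ne (PB_disj D (by linarith) h hpJ)
    refine le_trans ?_ h4
    apply mul_le_mul h3 hX
    · apply Finset.prod_nonneg
      intro j _
      apply mul_nonneg _ (Real.exp_pos _).le
      have := hR j
      linarith
    · unfold N2
      positivity

theorem low (C : ℝ) (hC1 : 1 ≤ C) (hC : ∀ (D : ℝ) (j : ℕ), 1 ≤ D → ∑ p ∈ PB D j, (1 : ℝ) / p ≤ C) (A : ℝ) (hA : 1 ≤ A)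
    (κ D : ℝ) (a a2 : ℕ → ℂ) (N : ℕ) (hκ : 2 * (Real.exp 1 * (A ^ 2 * C)) + 4 ≤ κ) (hD : 1 ≤ D) (ha : ∀ n, ‖a n‖ ≤ A)
    (hN : ∀ n, N < n → ebk D κ a a2 0 (JB D) n = 0) :
    1 / 2 * Real.exp (-(2 * A ^ 4)) * Real.exp (∑ p ∈ (Finset.Icc 1 ⌊Real.exp D⌋₊).filter Nat.Prime, ‖a p‖ ^ 2 / p) ≤
      N2 N (ebk D κ a a2 0 (JB D)) := by
  have hW : 0 ≤ Real.exp 1 * (A ^ 2 * C) := by positivity
  have ht : ∀ j : ℕ, Real.exp (Real.exp 1 * (A ^ 2 * C) - R9 κ j) ≤ 1 / 4 * (1 / 2) ^ j := by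
    intro j
    have h1 : κ * Real.exp (9 / 10 * (j : ℝ)) ≤ R9 κ j := Nat.le_ceil _
    have h2 : 1 + 9 / 10 * (j : ℝ) ≤ Real.exp (9 / 10 * (j : ℝ)) := by
      have := Real.add_one_le_exp (9 / 10 * (j : ℝ))
      linarith
    have hj : (0 : ℝ) ≤ j := Nat.cast_nonneg j
    have h3 : Real.exp 1 * (A ^ 2 * C) - R9 κ j ≤ -2 - (3 / 2) * (j : ℝ) := by
      have h4 : κ * (1 + 9 / 10 * (j : ℝ)) ≤ κ * Real.exp (9 / 10 * (j : ℝ)) := by
        apply mul_le_mul_of_nonneg_left h2 (by linarith)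
      nlinarith
    have h5 : Real.exp (Real.exp 1 * (A ^ 2 * C) - R9 κ j) ≤ Real.exp (-2 - (3 / 2) * (j : ℝ)) := Real.exp_le_exp.2 h3
    have h6 : Real.exp (-2 - (3 / 2) * (j : ℝ)) = Real.exp (-2) * (Real.exp (-(3 / 2))) ^ j := by
      rw [← Real.exp_nat_mul, ← Real.exp_add]; congr 1; ring
    have h7 : Real.exp (-2) ≤ 1 / 4 := by
      have e1 : Real.exp (-2) * Real.exp 2 = 1 := by rw [← Real.exp_add]; simp
      have e2 : (4 : ℝ) ≤ Real.exp 2 := by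
        have e3 : Real.exp 2 = Real.exp 1 * Real.exp 1 := by rw [← Real.exp_add]; norm_num
        have e4 := Real.add_one_le_exp (1 : ℝ)
        nlinarith
      have e5 := Real.exp_pos (-2 : ℝ)
      nlinarith
    have h8 : Real.exp (-(3 / 2)) ≤ 1 / 2 := by
      have e1 : Real.exp (-(3 / 2)) * Real.exp (3 / 2) = 1 := by rw [← Real.exp_add]; simp
      have e2 : (2 : ℝ) ≤ Real.exp (3 / 2) := by
        have e4 := Real.add_one_le_exp (3 / 2 : ℝ)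
        linarith
      have e5 := Real.exp_pos (-(3 / 2) : ℝ)
      nlinarith
    rw [h6] at h5
    refine h5.trans ?_
    apply mul_le_mul h7
    · exact pow_le_pow_left₀ (Real.exp_pos _).le h8 j
    · positivity
    · norm_num
  have ht1 : ∀ j : ℕ, Real.exp (Real.exp 1 * (A ^ 2 * C) - R9 κ j) ≤ 1 := by
    intro j
    refine (ht j).trans ?_
    have : ((1 : ℝ) / 2) ^ j ≤ 1 := pow_le_one₀ (by norm_num) (by norm_num)
    linarith
  obtain ⟨X, hX⟩ := N2_ebk_ge D κ A C a a2 hD (fun j => hC D j hD) ha ht1 (JB D)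
  refine le_trans ?_ (hX.trans (N2_le_of_supp _ X N hN))
  rw [Finset.prod_mul_distrib]
  have h1 := prod_one_sub_ge (JB D) (fun j => Real.exp (Real.exp 1 * (A ^ 2 * C) - R9 κ j)) (fun j => (Real.exp_pos _).le) ht1
  have h2 : ∑ j ∈ Finset.range (JB D), Real.exp (Real.exp 1 * (A ^ 2 * C) - R9 κ j) ≤ 1 / 2 := by
    calc ∑ j ∈ Finset.range (JB D), Real.exp (Real.exp 1 * (A ^ 2 * C) - R9 κ j) ≤
        ∑ j ∈ Finset.range (JB D), 1 / 4 * ((1 : ℝ) / 2) ^ j := Finset.sum_le_sum (fun j _ => ht j)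
      _ = 1 / 4 * ∑ j ∈ Finset.range (JB D), ((1 : ℝ) / 2) ^ j := by rw [Finset.mul_sum]
      _ ≤ 1 / 4 * 2 := by
          apply mul_le_mul_of_nonneg_left _ (by norm_num)
          have := sum_geometric_two_le (JB D)
          simpa using this
      _ = 1 / 2 := by norm_num
  have h3 : (1 : ℝ) / 2 ≤ ∏ j ∈ Finset.range (JB D), (1 - Real.exp (Real.exp 1 * (A ^ 2 * C) - R9 κ j)) := by linarith
  have h4 : Real.exp (-(2 * A ^ 4)) * Real.exp (∑ p ∈ (Finset.Icc 1 ⌊Real.exp D⌋₊).filter Nat.Prime, ‖a p‖ ^ 2 / p) ≤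
      ∏ j ∈ Finset.range (JB D), Real.exp (∑ p ∈ PB D j, ‖a p‖ ^ 2 / p - ∑ p ∈ PB D j, (‖a p‖ ^ 2 / p) ^ 2) := by
    rw [← Real.exp_add, ← Real.exp_sum, Real.exp_le_exp]
    have h5 : ∑ j ∈ Finset.range (JB D), (∑ p ∈ PB D j, ‖a p‖ ^ 2 / (p : ℝ) - ∑ p ∈ PB D j, (‖a p‖ ^ 2 / (p : ℝ)) ^ 2) =
        ∑ p ∈ (Finset.Icc 1 ⌊Real.exp D⌋₊).filter Nat.Prime, (‖a p‖ ^ 2 / (p : ℝ) - (‖a p‖ ^ 2 / (p : ℝ)) ^ 2) := by
      rw [PB_union D hD, Finset.sum_biUnion]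
      · apply Finset.sum_congr rfl
        intro j _
        rw [Finset.sum_sub_distrib]
      · intro i _ j _ hij
        rw [Function.onFun, Finset.disjoint_left]
        intro p hp hp'
        exact hij (PB_disj D (by linarith) hp hp')
    rw [h5, Finset.sum_sub_distrib]
    have h6 : ∑ p ∈ (Finset.Icc 1 ⌊Real.exp D⌋₊).filter Nat.Prime, (‖a p‖ ^ 2 / (p : ℝ)) ^ 2 ≤ 2 * A ^ 4 := by
      calc ∑ p ∈ (Finset.Icc 1 ⌊Real.exp D⌋₊).filter Nat.Prime, (‖a p‖ ^ 2 / (p : ℝ)) ^ 2 ≤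
          ∑ p ∈ Finset.Icc 1 ⌊Real.exp D⌋₊, (‖a p‖ ^ 2 / (p : ℝ)) ^ 2 := by
            apply Finset.sum_le_sum_of_subset_of_nonneg (Finset.filter_subset _ _)
            intro p _ _
            positivity
        _ ≤ ∑ p ∈ Finset.Icc 1 ⌊Real.exp D⌋₊, A ^ 4 * (1 / (p : ℝ) ^ 2) := by
            apply Finset.sum_le_sum
            intro p _
            rw [div_pow, mul_one_div]
            have h7 := ha p
            have h8 : (‖a p‖ ^ 2) ^ 2 ≤ A ^ 4 := by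
              rw [← pow_mul]
              exact pow_le_pow_left₀ (norm_nonneg _) h7 4
            gcongr
        _ = A ^ 4 * ∑ p ∈ Finset.Icc 1 ⌊Real.exp D⌋₊, (1 / (p : ℝ) ^ 2) := by rw [Finset.mul_sum]
        _ ≤ A ^ 4 * 2 := mul_le_mul_of_nonneg_left (sum_inv_sq _) (by positivity)
        _ = 2 * A ^ 4 := by ring
    linarith
  have h9 : 0 ≤ Real.exp (-(2 * A ^ 4)) * Real.exp (∑ p ∈ (Finset.Icc 1 ⌊Real.exp D⌋₊).filter Nat.Prime, ‖a p‖ ^ 2 / p) := by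
    positivity
  calc 1 / 2 * Real.exp (-(2 * A ^ 4)) * Real.exp (∑ p ∈ (Finset.Icc 1 ⌊Real.exp D⌋₊).filter Nat.Prime, ‖a p‖ ^ 2 / p) =
      1 / 2 * (Real.exp (-(2 * A ^ 4)) * Real.exp (∑ p ∈ (Finset.Icc 1 ⌊Real.exp D⌋₊).filter Nat.Prime, ‖a p‖ ^ 2 / p)) := by ring
    _ ≤ _ := by
      apply mul_le_mul h3 h4 h9
      linarith

/-! ### upper bound -/

/-- the majorant of the coefficients at one prime -/
def Fp (a a2 : ℕ → ℂ) (p : ℕ) : ArithmeticFunction ℝ :=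
  ⟨fun n => if n = 0 then 0 else (if n = p then ‖a p‖ else 0) + (if n = p ^ 2 then ‖a2 p‖ / 2 else 0), by simp⟩

theorem Fp_apply (a a2 : ℕ → ℂ) (p n : ℕ) :
    Fp a a2 p n = if n = 0 then 0 else (if n = p then ‖a p‖ else 0) + (if n = p ^ 2 then ‖a2 p‖ / 2 else 0) := rfl

theorem NN_Fp (a a2 : ℕ → ℂ) (p : ℕ) : NN (Fp a a2 p) := by
  intro n
  rw [Fp_apply]
  split_ifs <;> positivity

theorem qb_le (D : ℝ) (a a2 : ℕ → ℂ) (j n : ℕ) : ‖qb D a a2 j n‖ ≤ (∑ p ∈ PB D j, Fp a a2 p) n := by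
  classical
  rw [sum_ap]
  by_cases h0 : n = 0
  · subst h0
    have h1 : qb D a a2 j 0 = 0 := by
      by_contra h
      have := SP_qb D a a2 j 0 h
      exact this.1 rfl
    rw [h1, norm_zero]
    exact Finset.sum_nonneg fun p _ => NN_Fp a a2 p 0
  · have h1 : ∑ p ∈ PB D j, Fp a a2 p n = ∑ p ∈ PB D j, (if n = p then ‖a p‖ else 0) + ∑ p ∈ PB D j, (if n = p ^ 2 then ‖a2 p‖ / 2 else 0) := by
      rw [← Finset.sum_add_distrib]
      refine Finset.sum_congr rfl fun p _ => ?_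
      rw [Fp_apply, if_neg h0]
    rw [h1]
    unfold qb
    refine (norm_add_le _ _).trans (add_le_add ?_ ?_)
    · rw [Finset.sum_ite_eq]
      split_ifs
      · exact le_rfl
      · rw [norm_zero]
    · split_ifs with h2
      · have h3 : (if n = (Nat.sqrt n) ^ 2 then ‖a2 (Nat.sqrt n)‖ / 2 else 0) = ‖a2 (Nat.sqrt n) / 2‖ := by
          rw [if_pos h2.2, norm_div]
          norm_num
        rw [← h3]
        exact Finset.single_le_sum (f := fun p => if n = p ^ 2 then ‖a2 p‖ / 2 else 0) (fun p _ => by split_ifs <;> positivity) h2.1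
      · rw [norm_zero]
        exact Finset.sum_nonneg fun p _ => by split_ifs <;> positivity

theorem cvp_le (q : ℕ → ℂ) (F : ArithmeticFunction ℝ) (hF : NN F) (h : ∀ n, ‖q n‖ ≤ F n) (r n : ℕ) : ‖cvp q r n‖ ≤ (F ^ r) n := by
  induction r generalizing n with
  | zero =>
    rw [pow_zero, ArithmeticFunction.one_apply]
    show ‖(if n = 1 then (1 : ℂ) else 0)‖ ≤ _
    split_ifs
    · rw [norm_one]
    · rw [norm_zero]
  | succ r ih =>
    rw [pow_succ', ArithmeticFunction.mul_apply]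
    show ‖cv q (cvp q r) n‖ ≤ _
    unfold cv
    refine (norm_sum_le _ _).trans (Finset.sum_le_sum fun x _ => ?_)
    rw [norm_mul]
    exact mul_le_mul (h _) (ih _) (norm_nonneg _) (hF _)

theorem te_le (q : ℕ → ℂ) (F : ArithmeticFunction ℝ) (hF : NN F) (h : ∀ n, ‖q n‖ ≤ F n) (R n : ℕ) : ‖te q R n‖ ≤ Ee F R n := by
  rw [Ee_apply]
  unfold te
  refine (norm_sum_le _ _).trans (Finset.sum_le_sum fun r _ => ?_)
  rw [norm_div, Complex.norm_natCast]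
  gcongr
  exact cvp_le q F hF h r n

theorem ebk_le (D κ : ℝ) (a a2 : ℕ → ℂ) (J : ℕ) : ∀ n, ‖ebk D κ a a2 0 J n‖ ≤
    (∏ j ∈ Finset.range J, ∏ p ∈ PB D j, Ee (Fp a a2 p) (R9 κ j)) n := by
  induction J with
  | zero =>
    intro n
    rw [Finset.range_zero, Finset.prod_empty, ArithmeticFunction.one_apply]
    show ‖(if n = 1 then (1 : ℂ) else 0)‖ ≤ _
    split_ifs
    · rw [norm_one]
    · rw [norm_zero]
  | succ J ih =>
    intro n
    rw [ebk_succ, Finset.prod_range_succ, mul_comm, ArithmeticFunction.mul_apply]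
    unfold cv
    refine (norm_sum_le _ _).trans (Finset.sum_le_sum fun x _ => ?_)
    rw [norm_mul]
    refine mul_le_mul ?_ (ih _) (norm_nonneg _) (NN_prod _ _ (fun p _ => NN_Ee (NN_Fp a a2 p) _) _)
    exact (te_le _ _ (NN_sum _ _ fun p _ => NN_Fp a a2 p) (qb_le D a a2 J) (R9 κ J) x.1).trans
      (Ee_sum (PB D J) (Fp a a2) (NN_Fp a a2) (R9 κ J) x.1)

theorem Fp_one (a a2 : ℕ → ℂ) {p : ℕ} (hp : p.Prime) : Fp a a2 p 1 = 0 := by
  rw [Fp_apply, if_neg one_ne_zero, if_neg hp.one_lt.ne, if_neg, add_zero]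
  exact (one_lt_pow₀ hp.one_lt two_ne_zero).ne

theorem Fp_self (a a2 : ℕ → ℂ) {p : ℕ} (hp : p.Prime) : Fp a a2 p p = ‖a p‖ := by
  rw [Fp_apply, if_neg hp.ne_zero, if_pos rfl, if_neg, add_zero]
  intro h
  have : p ^ 1 = p ^ 2 := by rw [pow_one]; exact h
  have := Nat.pow_right_injective hp.two_le this
  omega

theorem SPA_Fp (a a2 : ℕ → ℂ) {p : ℕ} (hp : p.Prime) : SPA (fun q => q = p) (Fp a a2 p) := by
  intro n hn q hq hqn
  rw [Fp_apply] at hn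
  by_cases h1 : n = p
  · rw [h1] at hqn
    exact (Nat.prime_dvd_prime_iff_eq hq hp).1 hqn
  · by_cases h2 : n = p ^ 2
    · rw [h2] at hqn
      exact (Nat.prime_dvd_prime_iff_eq hq hp).1 (hq.dvd_of_dvd_pow hqn)
    · exfalso
      apply hn
      rw [if_neg h1, if_neg h2]
      simp

theorem Fp_l1 (a a2 : ℕ → ℂ) (p n : ℕ) : ∑ d ∈ n.divisors, Fp a a2 p d ≤ ‖a p‖ + ‖a2 p‖ / 2 := by
  classical
  calc ∑ d ∈ n.divisors, Fp a a2 p d ≤ ∑ d ∈ n.divisors, ((if d = p then ‖a p‖ else 0) + (if d = p ^ 2 then ‖a2 p‖ / 2 else 0)) := by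
        refine Finset.sum_le_sum fun d _ => ?_
        rw [Fp_apply]
        by_cases h : d = 0
        · rw [if_pos h]
          split_ifs <;> positivity
        · rw [if_neg h]
    _ = ∑ d ∈ n.divisors, (if d = p then ‖a p‖ else 0) + ∑ d ∈ n.divisors, (if d = p ^ 2 then ‖a2 p‖ / 2 else 0) :=
        Finset.sum_add_distrib
    _ ≤ ‖a p‖ + ‖a2 p‖ / 2 := by
        refine add_le_add ?_ ?_
        · rw [Finset.sum_ite_eq']
          split_ifs
          · exact le_rfl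
          · positivity
        · rw [Finset.sum_ite_eq']
          split_ifs
          · exact le_rfl
          · positivity

theorem upp (A : ℝ) (κ D : ℝ) (a a2 : ℕ → ℂ) (hD : 1 ≤ D) (ha : ∀ n, ‖a n‖ ≤ A) (ha2 : ∀ n, ‖a2 n‖ ≤ A) (N : ℕ) :
    N2 N (ebk D κ a a2 0 (JB D)) ≤
      Real.exp (4 * Real.exp (3 * A)) * Real.exp (∑ p ∈ (Finset.Icc 1 ⌊Real.exp D⌋₊).filter Nat.Prime, ‖a p‖ ^ 2 / p) := by
  have h1 : N2 N (ebk D κ a a2 0 (JB D)) ≤ N2A N (∏ j ∈ Finset.range (JB D), ∏ p ∈ PB D j, Ee (Fp a a2 p) (R9 κ j)) := by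
    unfold N2 N2A
    refine Finset.sum_le_sum fun n _ => ?_
    have := ebk_le D κ a a2 (JB D) n
    gcongr
  refine h1.trans ?_
  rw [Finset.prod_sigma']
  refine (N2A_prod N _ _ (fun x : (_ : ℕ) × ℕ => x.2) ?_ ?_).trans ?_
  · rintro ⟨i, p⟩ hx ⟨j, q⟩ hy h
    rw [Finset.mem_sigma] at hx hy
    simp only at h hx hy
    subst h
    have := PB_disj D (by linarith) hx.2 hy.2
    subst this
    rfl
  · rintro ⟨i, p⟩ hx
    rw [Finset.mem_sigma] at hx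
    exact SPA_Ee (SPA_Fp a a2 (mem_PB hx.2).1) _
  · have h2 : ∀ x ∈ (Finset.range (JB D)).sigma (fun j => PB D j), N2A N (Ee (Fp a a2 x.2) (R9 κ x.1)) ≤
        Real.exp (‖a x.2‖ ^ 2 / x.2 + 2 * Real.exp (3 * A) * (1 / (x.2 : ℝ) ^ 2)) := by
      rintro ⟨j, p⟩ hx
      rw [Finset.mem_sigma] at hx
      simp only
      have hp := (mem_PB hx.2).1
      have h3 := N2A_local (NN_Fp a a2 p) hp (Fp_one a a2 hp) (SPA_Fp a a2 hp) (‖a p‖ + ‖a2 p‖ / 2) (by positivity) (Fp_l1 a a2 p) (R9 κ j) N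
      rw [Fp_self a a2 hp] at h3
      have h4 : Real.exp (2 * (‖a p‖ + ‖a2 p‖ / 2)) ≤ Real.exp (3 * A) := by
        apply Real.exp_le_exp.2
        have e1 := ha p
        have e2 := ha2 p
        linarith
      have h5 : 2 * Real.exp (2 * (‖a p‖ + ‖a2 p‖ / 2)) / (p : ℝ) ^ 2 ≤ 2 * Real.exp (3 * A) * (1 / (p : ℝ) ^ 2) := by
        rw [mul_one_div]
        gcongr
      have h6 := Real.add_one_le_exp (‖a p‖ ^ 2 / (p : ℝ) + 2 * Real.exp (3 * A) * (1 / (p : ℝ) ^ 2))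
      linarith
    refine (Finset.prod_le_prod (fun x _ => N2A_nonneg _ _) h2).trans ?_
    rw [← Real.exp_sum, ← Real.exp_add, Real.exp_le_exp,
      Finset.sum_sigma' (Finset.range (JB D)) (fun j => PB D j)
        (fun _ p => ‖a p‖ ^ 2 / (p : ℝ) + 2 * Real.exp (3 * A) * (1 / (p : ℝ) ^ 2)) |>.symm]
    have h5 : ∑ j ∈ Finset.range (JB D), ∑ p ∈ PB D j, (‖a p‖ ^ 2 / (p : ℝ) + 2 * Real.exp (3 * A) * (1 / (p : ℝ) ^ 2)) =
        ∑ p ∈ (Finset.Icc 1 ⌊Real.exp D⌋₊).filter Nat.Prime, (‖a p‖ ^ 2 / (p : ℝ) + 2 * Real.exp (3 * A) * (1 / (p : ℝ) ^ 2)) := by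
      rw [PB_union D hD, Finset.sum_biUnion]
      intro i _ j _ hij
      rw [Function.onFun, Finset.disjoint_left]
      intro p hp hp'
      exact hij (PB_disj D (by linarith) hp hp')
    rw [h5, Finset.sum_add_distrib, ← Finset.mul_sum]
    have h6 : ∑ p ∈ (Finset.Icc 1 ⌊Real.exp D⌋₊).filter Nat.Prime, (1 / (p : ℝ) ^ 2) ≤ 2 :=
      (Finset.sum_le_sum_of_subset_of_nonneg (Finset.filter_subset _ _) (fun p _ _ => by positivity)).trans (sum_inv_sq _)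
    have h7 : 2 * Real.exp (3 * A) * ∑ p ∈ (Finset.Icc 1 ⌊Real.exp D⌋₊).filter Nat.Prime, (1 / (p : ℝ) ^ 2) ≤ 2 * Real.exp (3 * A) * 2 := by
      gcongr
    linarith

theorem t_EN2 : J_EN2 := by
  rintro ⟨C, hC1, hC⟩ hcof A hA
  have hW : 0 ≤ Real.exp 1 * (A ^ 2 * C) := by positivity
  refine ⟨2 * (Real.exp 1 * (A ^ 2 * C)) + 4, by linarith, 1 / 2 * Real.exp (-(2 * A ^ 4)), Real.exp (4 * Real.exp (3 * A)),
    by positivity, by positivity, ?_⟩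
  intro κ D a a2 hκ hD ha ha2
  refine ⟨?_, upp A κ D a a2 hD ha ha2 _⟩
  have h1 := (hcof κ D (by linarith) hD a a2 a a2 0 0).1
  rw [Nat.sub_zero] at h1
  refine low C hC1 hC A hA κ D a a2 _ hκ hD ha fun n hn => ?_
  by_contra h
  have := (h1 n h).2
  omega

end

end Pool.Agent.Q299.UM
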